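import Pool.Agent.Helper4.TRI.Noeth

/-!
# TRI, block G6: a further homogeneous equation bounds the growth
-/

set_option autoImplicit false

namespace Pool.Agent.TRI

open Module MvPolynomial

universe u

section

variable {k₀ : Type u} [Field k₀] {N : ℕ} {I : Ideal (MvPolynomial (Fin (N + 1)) k₀)}

private theorem hom_lf4 {K : Type*} [Field K] (m : Fin (N + 1) → K) : (lf4 m).IsHomogeneous 1 := by
  refine MvPolynomial.IsHomogeneous.sum _ _ _ fun j _ => ?_
  have := (isHomogeneous_C (Fin (N + 1)) (m j)).mul (isHomogeneous_X K j)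
  simpa using this

private theorem comp_mul4 {K : Type*} [Field K] {f : MvPolynomial (Fin (N + 1)) K} (hf : f.IsHomogeneous 1) (p : MvPolynomial (Fin (N + 1)) K)
    (L : ℕ) : homogeneousComponent (L + 1) (p * f) = homogeneousComponent L p * f := by
  classical
  conv_lhs => rw [← sum_homogeneousComponent p, Finset.sum_mul, map_sum]
  have h1 : ∀ i, homogeneousComponent (L + 1) (homogeneousComponent i p * f) = if i = L then homogeneousComponent i p * f else 0 := by
    intro i
    have h2 : (homogeneousComponent i p * f).IsHomogeneous (i + 1) := (homogeneousComponent_isHomogeneous i p).mul hf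
    rw [homogeneousComponent_of_mem ((mem_homogeneousSubmodule _ _).2 h2)]
    by_cases h : i = L
    · subst h
      simp
    · rw [if_neg h, if_neg (by omega)]
  rw [Finset.sum_congr rfl fun i _ => h1 i, Finset.sum_ite_eq' (Finset.range (p.totalDegree + 1)) L]
  split_ifs with h
  · rfl
  · rw [homogeneousComponent_eq_zero _ _ (by rw [Finset.mem_range] at h; omega), zero_mul]

/-- the linear system of parameters, with homogeneous coefficients -/
theorem noether4' [CharZero k₀] (hX : Surf I) : ∃ (z : Fin 3 → Fin (N + 1) → k₀) (L : ℕ), lf4 (z 0) ∉ I ∧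
    ∀ j, ∃ q : Fin 3 → MvPolynomial (Fin (N + 1)) k₀, (∀ i, (q i).IsHomogeneous L) ∧
      (X j : MvPolynomial (Fin (N + 1)) k₀) ^ (L + 1) - ∑ i, q i * lf4 (z i) ∈ I := by
  obtain ⟨z, L, hz, h⟩ := noether4 hX
  refine ⟨z, L, hz, fun j => ?_⟩
  have h1 : (X j : MvPolynomial (Fin (N + 1)) k₀) ^ (L + 1) ∈ I ⊔ Ideal.span (Set.range fun i => lf4 (z i)) := by
    rw [pow_succ]
    exact Ideal.mul_mem_right _ _ (h j)
  obtain ⟨p, hp, s, hs, hps⟩ := Submodule.mem_sup.1 h1
  obtain ⟨c, hc⟩ := Ideal.mem_span_range_iff_exists_fun.1 hs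
  refine ⟨fun i => homogeneousComponent L (c i), fun i => homogeneousComponent_isHomogeneous _ _, ?_⟩
  have h2 := congrArg (homogeneousComponent (L + 1)) hps
  rw [← hc, map_add, map_sum] at h2
  simp only [comp_mul4 (hom_lf4 _)] at h2
  have h3 : homogeneousComponent (L + 1) ((X j : MvPolynomial (Fin (N + 1)) k₀) ^ (L + 1)) = X j ^ (L + 1) := by
    have h4 : ((X j : MvPolynomial (Fin (N + 1)) k₀) ^ (L + 1)).IsHomogeneous (L + 1) := by
      simpa using (isHomogeneous_X k₀ j).pow (L + 1)
    rw [homogeneousComponent_of_mem ((mem_homogeneousSubmodule _ _).2 h4), if_pos rfl]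
  rw [h3] at h2
  rw [← h2, add_sub_cancel_right]
  exact hX.hom p hp (L + 1)

end

section

variable {k R : Type*} [Field k] [CommRing R] [Algebra k R] {n : ℕ}

private theorem prod_mem4 {ι : Type*} (W : Submodule k R) (S : Finset ι) (y : ι → R) (e : ι → ℕ) (h : ∀ i ∈ S, y i ∈ W ^ e i) :
    ∏ i ∈ S, y i ∈ W ^ (∑ i ∈ S, e i) := by
  classical
  induction S using Finset.induction_on with
  | empty =>
    rw [Finset.prod_empty, Finset.sum_empty, pow_zero]
    exact Submodule.one_le.1 le_rfl
  | insert a S ha ih =>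
    rw [Finset.prod_insert ha, Finset.sum_insert ha, pow_add]
    exact Submodule.mul_mem_mul (h a (Finset.mem_insert_self _ _)) (ih fun i hi => h i (Finset.mem_insert_of_mem hi))

/-- a form of degree `e` -/
private theorem form_mem4 (x : Fin n → R) {f : MvPolynomial (Fin n) k} {e : ℕ} (hf : f.IsHomogeneous e) :
    aeval x f ∈ Submodule.span k (Set.range x) ^ e := by
  classical
  rw [aeval_def, eval₂_eq]
  refine Submodule.sum_mem _ fun s hs => ?_
  rw [← Algebra.smul_def]
  refine Submodule.smul_mem _ _ ?_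
  have h1 : ∑ i ∈ s.support, s i = e := by
    have := hf (mem_support_iff.1 hs)
    rw [Finsupp.weight_apply, Finsupp.sum] at this
    simpa using this
  rw [← h1]
  exact prod_mem4 _ _ _ _ fun i _ => Submodule.pow_mem_pow _ (Submodule.subset_span (Set.mem_range_self i)) _

variable (x : Fin n → R) (ζ : Fin 3 → R) (M : ℕ)

/-- the products of the powers of the parameters and of the monomials with small exponents -/
private def Gs4 (m : ℕ) : Set R :=
  {y | ∃ (α : Fin 3 → ℕ) (β : Fin n → ℕ), ∑ i, α i + ∑ j, β j = m ∧ (∀ j, β j < M) ∧ y = (∏ i, ζ i ^ α i) * ∏ j, x j ^ β j}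

private theorem span_pow4 {L : ℕ} (hM : M = L + 1)
    (h : ∀ j, ∃ q : Fin 3 → R, (∀ i, q i ∈ Submodule.span k (Set.range x) ^ L) ∧ x j ^ (L + 1) = ∑ i, q i * ζ i) (m : ℕ) :
    Submodule.span k (Set.range x) ^ m ≤ Submodule.span k (Gs4 x ζ M m) := by
  classical
  induction m using Nat.strong_induction_on with
  | _ m ih =>
    rcases m with _ | m
    · rw [pow_zero, Submodule.one_le]
      refine Submodule.subset_span ⟨0, 0, by simp, fun j => by rw [hM]; exact Nat.succ_pos _, by simp⟩
    · rw [pow_succ]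
      refine (mul_le_mul' (ih m (Nat.lt_succ_self m)) le_rfl).trans ?_
      rw [Submodule.span_mul_span, Submodule.span_le]
      rintro _ ⟨y, ⟨α, β, hab, hβ, rfl⟩, _, ⟨j, rfl⟩, rfl⟩
      show (∏ i, ζ i ^ α i) * (∏ j, x j ^ β j) * x j ∈ _
      have hx : ∀ (b : ℕ) (c : Fin n → ℕ), (∏ j', x j' ^ (Function.update c j b) j') = x j ^ b * ∏ j' ∈ Finset.univ.erase j, x j' ^ c j' := by
        intro b c
        rw [← Finset.mul_prod_erase _ _ (Finset.mem_univ j), Function.update_self]
        congr 1
        refine Finset.prod_congr rfl fun j' hj' => ?_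
        rw [Function.update_of_ne (Finset.ne_of_mem_erase hj')]
      have hs : ∀ (b : ℕ) (c : Fin n → ℕ), (∑ j', (Function.update c j b) j') = b + ∑ j' ∈ Finset.univ.erase j, c j' := by
        intro b c
        rw [← Finset.add_sum_erase _ _ (Finset.mem_univ j), Function.update_self]
        congr 1
        refine Finset.sum_congr rfl fun j' hj' => ?_
        rw [Function.update_of_ne (Finset.ne_of_mem_erase hj')]
      have hxβ := hx (β j) β
      have hsβ := hs (β j) β
      rw [Function.update_eq_self] at hxβ hsβ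
      by_cases hj : β j + 1 < M
      · refine Submodule.subset_span ⟨α, Function.update β j (β j + 1), ?_, fun j' => ?_, ?_⟩
        · rw [hs]
          omega
        · by_cases hjj : j' = j
          · subst hjj
            rw [Function.update_self]
            exact hj
          · rw [Function.update_of_ne hjj]
            exact hβ j'
        · rw [hx, hxβ]
          ring
      · have hj' : β j = L := by
          have := hβ j
          omega
        obtain ⟨q, hq, hxq⟩ := h j
        have e1 : (∏ i, ζ i ^ α i) * (∏ j, x j ^ β j) * x j =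
            ∑ i, (∏ i', ζ i' ^ (Function.update α i (α i + 1)) i') * ((∏ j' ∈ Finset.univ.erase j, x j' ^ β j') * q i) := by
          have e2 : (∏ i, ζ i ^ α i) * (∏ j, x j ^ β j) * x j = (∏ i, ζ i ^ α i) * (∏ j' ∈ Finset.univ.erase j, x j' ^ β j') * x j ^ (L + 1) := by
            rw [hxβ, hj']
            ring
          rw [e2, hxq, Finset.mul_sum]
          refine Finset.sum_congr rfl fun i _ => ?_
          have e3 : (∏ i', ζ i' ^ (Function.update α i (α i + 1)) i') = (∏ i, ζ i ^ α i) * ζ i := by
            rw [← Finset.mul_prod_erase _ _ (Finset.mem_univ i), ← Finset.mul_prod_erase _ (fun i => ζ i ^ α i) (Finset.mem_univ i),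
              Function.update_self]
            have e4 : (∏ i' ∈ Finset.univ.erase i, ζ i' ^ (Function.update α i (α i + 1)) i') = ∏ i' ∈ Finset.univ.erase i, ζ i' ^ α i' :=
              Finset.prod_congr rfl fun i' hi' => by rw [Function.update_of_ne (Finset.ne_of_mem_erase hi')]
            rw [e4]
            ring
          rw [e3]
          ring
        rw [e1]
        refine Submodule.sum_mem _ fun i _ => ?_
        have h1 : (∏ j' ∈ Finset.univ.erase j, x j' ^ β j') * q i ∈ Submodule.span k (Set.range x) ^ (∑ j', β j') := by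
          rw [hsβ, hj', add_comm, pow_add]
          refine Submodule.mul_mem_mul ?_ (hq i)
          exact prod_mem4 _ _ _ _ fun j' _ => Submodule.pow_mem_pow _ (Submodule.subset_span (Set.mem_range_self j')) _
        have h2 := ih (∑ j', β j') (by omega) h1
        have h3 : ∀ y ∈ Submodule.span k (Gs4 x ζ M (∑ j', β j')),
            (∏ i', ζ i' ^ (Function.update α i (α i + 1)) i') * y ∈ Submodule.span k (Gs4 x ζ M (m + 1)) := by
          intro y hy
          refine Submodule.span_induction (p := fun y _ => (∏ i', ζ i' ^ (Function.update α i (α i + 1)) i') * y ∈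
            Submodule.span k (Gs4 x ζ M (m + 1))) ?_ ?_ ?_ ?_ hy
          · rintro _ ⟨α', β', hab', hβ', rfl⟩
            refine Submodule.subset_span ⟨fun i' => Function.update α i (α i + 1) i' + α' i', β', ?_, hβ', ?_⟩
            · rw [Finset.sum_add_distrib]
              have e5 : (∑ i', (Function.update α i (α i + 1)) i') = ∑ i', α i' + 1 := by
                rw [← Finset.add_sum_erase _ _ (Finset.mem_univ i), ← Finset.add_sum_erase _ (fun i => α i) (Finset.mem_univ i),
                  Function.update_self]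
                have e6 : (∑ i' ∈ Finset.univ.erase i, (Function.update α i (α i + 1)) i') = ∑ i' ∈ Finset.univ.erase i, α i' :=
                  Finset.sum_congr rfl fun i' hi' => by rw [Function.update_of_ne (Finset.ne_of_mem_erase hi')]
                rw [e6]
                ring
              rw [e5]
              omega
            · simp only [pow_add, Finset.prod_mul_distrib]
              ring
          · rw [mul_zero]
            exact Submodule.zero_mem _
          · intro a b _ _ ha hb
            rw [mul_add]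
            exact Submodule.add_mem _ ha hb
          · intro c a _ ha
            rw [mul_smul_comm]
            exact Submodule.smul_mem _ _ ha
        exact h3 _ h2

/-- the spanning set is finite up to multiples of the power of the first parameter -/
private noncomputable def gf4 (D m : ℕ) (p : Fin D × Fin (m + 1) × (Fin n → Fin M)) : R :=
  ζ 0 ^ (p.1 : ℕ) * ζ 1 ^ (p.2.1 : ℕ) * ζ 2 ^ (m - p.1 - p.2.1 - ∑ j, (p.2.2 j : ℕ)) * ∏ j, x j ^ (p.2.2 j : ℕ)

private theorem mem_gf4 {D m : ℕ} {α : Fin 3 → ℕ} {β : Fin n → ℕ} (hs : ∑ i, α i + ∑ j, β j = m) (hβ : ∀ j, β j < M) (hα : α 0 < D) :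
    (∏ i, ζ i ^ α i) * ∏ j, x j ^ β j ∈ Set.range (gf4 x ζ M D m) := by
  rw [Fin.sum_univ_three] at hs
  refine ⟨(⟨α 0, hα⟩, ⟨α 1, by omega⟩, fun j => ⟨β j, hβ j⟩), ?_⟩
  show ζ 0 ^ α 0 * ζ 1 ^ α 1 * ζ 2 ^ (m - α 0 - α 1 - ∑ j, β j) * ∏ j, x j ^ β j = _
  rw [Fin.prod_univ_three, show m - α 0 - α 1 - ∑ j, β j = α 2 by omega]

private theorem card_gf4 (D m : ℕ) : finrank k (Submodule.span k (Set.range (gf4 x ζ M D m))) ≤ D * M ^ n * (m + 1) := by
  refine (finrank_range_le_card _).trans (le_of_eq ?_)
  simp only [Fintype.card_prod, Fintype.card_fin, Fintype.card_pi, Finset.prod_const, Finset.card_univ]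
  ring

private theorem fd4 {F : Type*} [CommRing F] [Algebra k F] {W : Submodule k F} (hW : W.FG) (m : ℕ) : FiniteDimensional k ↥(W ^ m) :=
  (Submodule.fg_iff_finiteDimensional _).1 (hW.pow m)

private theorem upper4 {L : ℕ} (hM : M = L + 1)
    (h : ∀ j, ∃ q : Fin 3 → R, (∀ i, q i ∈ Submodule.span k (Set.range x) ^ L) ∧ x j ^ (L + 1) = ∑ i, q i * ζ i)
    (hζ : ∀ i, ζ i ∈ Submodule.span k (Set.range x)) {D m : ℕ} (hm : D ≤ m) :
    finrank k ↥(Submodule.span k (Set.range x) ^ m) ≤ finrank k ↥(Submodule.span k (Set.range x) ^ (m - D)) + D * M ^ n * (m + 1) := by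
  have hfg : (Submodule.span k (Set.range x)).FG := Submodule.fg_span (Set.finite_range x)
  have hf1 := fd4 hfg (m - D)
  have hf3 : FiniteDimensional k ↥(Submodule.span k (Set.range (gf4 x ζ M D m))) := FiniteDimensional.span_of_finite k (Set.finite_range _)
  have h1 : Submodule.span k (Set.range x) ^ m ≤ (Submodule.span k (Set.range x) ^ (m - D)).map (LinearMap.mulLeft k (ζ 0 ^ D)) ⊔
      Submodule.span k (Set.range (gf4 x ζ M D m)) := by
    refine (span_pow4 x ζ M hM h m).trans (Submodule.span_le.2 ?_)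
    rintro _ ⟨α, β, hs, hβ, rfl⟩
    by_cases hα : α 0 < D
    · exact Submodule.mem_sup_right (Submodule.subset_span (mem_gf4 x ζ M hs hβ hα))
    · push Not at hα
      refine Submodule.mem_sup_left ⟨(∏ i, ζ i ^ (Function.update α 0 (α 0 - D)) i) * ∏ j, x j ^ β j, ?_, ?_⟩
      · have e1 : m - D = (∑ i, (Function.update α 0 (α 0 - D)) i) + ∑ j, β j := by
          rw [Fin.sum_univ_three] at hs ⊢
          rw [Function.update_self, Function.update_of_ne (by decide), Function.update_of_ne (by decide)]
          omega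
        rw [SetLike.mem_coe, e1, pow_add]
        exact Submodule.mul_mem_mul (prod_mem4 _ _ _ _ fun i _ => Submodule.pow_mem_pow _ (hζ i) _)
          (prod_mem4 _ _ _ _ fun j _ => Submodule.pow_mem_pow _ (Submodule.subset_span (Set.mem_range_self j)) _)
      · show ζ 0 ^ D * _ = _
        rw [Fin.prod_univ_three, Fin.prod_univ_three, Function.update_self, Function.update_of_ne (by decide),
          Function.update_of_ne (by decide)]
        have e2 : ζ 0 ^ α 0 = ζ 0 ^ D * ζ 0 ^ (α 0 - D) := by rw [← pow_add, Nat.add_sub_cancel' hα]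
        rw [e2]
        ring
  refine (Submodule.finrank_mono h1).trans ((Submodule.finrank_add_le_finrank_add_finrank _ _).trans ?_)
  exact add_le_add (Submodule.finrank_map_le _ _) (card_gf4 x ζ M D m)

private theorem small4 {L : ℕ} (hM : M = L + 1)
    (h : ∀ j, ∃ q : Fin 3 → R, (∀ i, q i ∈ Submodule.span k (Set.range x) ^ L) ∧ x j ^ (L + 1) = ∑ i, q i * ζ i) {D m : ℕ} (hm : m < D) :
    finrank k ↥(Submodule.span k (Set.range x) ^ m) ≤ D * M ^ n * (m + 1) := by
  have hf3 : FiniteDimensional k ↥(Submodule.span k (Set.range (gf4 x ζ M D m))) := FiniteDimensional.span_of_finite k (Set.finite_range _)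
  have h1 : Submodule.span k (Set.range x) ^ m ≤ Submodule.span k (Set.range (gf4 x ζ M D m)) := by
    refine (span_pow4 x ζ M hM h m).trans (Submodule.span_mono ?_)
    rintro _ ⟨α, β, hs, hβ, rfl⟩
    refine mem_gf4 x ζ M hs hβ ?_
    rw [Fin.sum_univ_three] at hs
    omega
  exact (Submodule.finrank_mono h1).trans (card_gf4 x ζ M D m)

private theorem lower4 [IsDomain R] {E : Type*} [Field E] [Algebra k E] (φ : R →ₐ[k] E) {W : Submodule k R} (hW : W.FG) {J : R}
    (hJ : J ≠ 0) {D : ℕ} (hJW : J ∈ W ^ D) (hφ : φ J = 0) {m : ℕ} (hm : D ≤ m) :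
    finrank k ↥((W.map φ.toLinearMap) ^ m) + finrank k ↥(W ^ (m - D)) ≤ finrank k ↥(W ^ m) := by
  have hf := fd4 hW m
  have h0 : (W.map φ.toLinearMap) ^ m = (W ^ m).map φ.toLinearMap := by
    rw [Submodule.map_pow]
  have h1 := LinearMap.finrank_range_add_finrank_ker (φ.toLinearMap.domRestrict (W ^ m))
  rw [LinearMap.range_domRestrict] at h1
  have h2 : ∀ z ∈ W ^ (m - D), J * z ∈ W ^ m := by
    intro z hz
    have := Submodule.mul_mem_mul hJW hz
    rwa [← pow_add, Nat.add_sub_cancel' hm] at this
  let g : ↥(W ^ (m - D)) →ₗ[k] ↥(LinearMap.ker (φ.toLinearMap.domRestrict (W ^ m))) :=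
    { toFun := fun z => ⟨⟨J * z, h2 z z.2⟩, by
        rw [LinearMap.mem_ker]
        show φ (J * z) = 0
        rw [map_mul, hφ, zero_mul]⟩
      map_add' := fun a b => by
        ext
        show J * (a + b : R) = J * a + J * b
        ring
      map_smul' := fun c a => by
        ext
        show J * (c • (a : R)) = c • (J * a)
        rw [mul_smul_comm] }
  have hg : Function.Injective g := by
    intro a b hab
    have h3 : J * (a : R) = J * b := congrArg Subtype.val (congrArg Subtype.val hab)
    exact Subtype.ext (mul_left_cancel₀ hJ h3)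
  have h3 := LinearMap.finrank_le_finrank_of_injective hg
  rw [h0]
  omega

end

section

variable {k₀ : Type u} [Field k₀] [CharZero k₀] {N : ℕ} {I : Ideal (MvPolynomial (Fin (N + 1)) k₀)}

theorem grow_J (hX : Surf I) (D : ℕ) : ∃ d : ℕ, ∀ (k E : Type u) [Field k] [Field E] [Algebra k₀ k] [Algebra k E] [Algebra k₀ E]
    [IsScalarTower k₀ k E] (ξ : Fin (N + 1) → E), OnX I ξ → ∀ J : MvPolynomial (Fin (N + 1)) k, J.IsHomogeneous D →
      J ∉ I.map (MvPolynomial.map (algebraMap k₀ k)) → aeval ξ J = 0 →
      ∃ C : ℕ, ∀ m, finrank k ↥((Submodule.span k (Set.range ξ)) ^ m) ≤ d * m + C := by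
  obtain ⟨z, L, hz, hq⟩ := noether4' hX
  refine ⟨D * (L + 1) ^ (N + 1), fun k E _ _ _ _ _ _ ξ hξ J hJ hJP hJξ => ⟨D * (L + 1) ^ (N + 1), fun m => ?_⟩⟩
  let P : Ideal (MvPolynomial (Fin (N + 1)) k) := I.map (MvPolynomial.map (algebraMap k₀ k))
  have hP : P.IsPrime := hX.geo k
  let R := MvPolynomial (Fin (N + 1)) k ⧸ P
  have hker : ∀ a ∈ P, (aeval ξ : MvPolynomial (Fin (N + 1)) k →ₐ[k] E) a = 0 := by
    intro a ha
    have h1 : P ≤ RingHom.ker (aeval ξ : MvPolynomial (Fin (N + 1)) k →ₐ[k] E).toRingHom := by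
      refine Ideal.map_le_iff_le_comap.2 fun g hg => ?_
      rw [Ideal.mem_comap, RingHom.mem_ker]
      show aeval ξ (MvPolynomial.map (algebraMap k₀ k) g) = 0
      rw [MvPolynomial.aeval_map_algebraMap]
      exact hξ g hg
    exact h1 ha
  let φ : R →ₐ[k] E := Ideal.Quotient.liftₐ P (aeval ξ) hker
  let x : Fin (N + 1) → R := fun j => Ideal.Quotient.mk P (X j)
  let tr : MvPolynomial (Fin (N + 1)) k₀ → R := fun g => Ideal.Quotient.mk P (MvPolynomial.map (algebraMap k₀ k) g)
  let ζ : Fin 3 → R := fun i => tr (lf4 (z i))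
  have hmk : ∀ f : MvPolynomial (Fin (N + 1)) k, Ideal.Quotient.mk P f = aeval x f := by
    intro f
    have h1 : (Ideal.Quotient.mkₐ k P) = aeval x := MvPolynomial.algHom_ext fun j => by
      rw [aeval_X]
      rfl
    exact congrArg (fun g : MvPolynomial (Fin (N + 1)) k →ₐ[k] R => g f) h1
  have htr : ∀ (g : MvPolynomial (Fin (N + 1)) k₀) (e : ℕ), g.IsHomogeneous e → tr g ∈ Submodule.span k (Set.range x) ^ e := by
    intro g e hg
    show Ideal.Quotient.mk P _ ∈ _
    rw [hmk]
    exact form_mem4 x (hg.map _)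
  have hζ : ∀ i, ζ i ∈ Submodule.span k (Set.range x) := fun i => by
    have h1 := htr _ 1 (hom_lf4 (z i))
    have h2 : Submodule.span k (Set.range x) ^ 1 = Submodule.span k (Set.range x) := Submodule.pow_one _
    exact h2 ▸ h1
  have hζ0 : ζ 0 ≠ 0 := fun h => hz (contract4 (k := k) I _ (Ideal.Quotient.eq_zero_iff_mem.1 h))
  have hh : ∀ j, ∃ q : Fin 3 → R, (∀ i, q i ∈ Submodule.span k (Set.range x) ^ L) ∧ x j ^ (L + 1) = ∑ i, q i * ζ i := by
    intro j
    obtain ⟨q, hq1, hq2⟩ := hq j
    refine ⟨fun i => tr (q i), fun i => htr _ _ (hq1 i), ?_⟩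
    have h1 : Ideal.Quotient.mk P (MvPolynomial.map (algebraMap k₀ k) (X j ^ (L + 1) - ∑ i, q i * lf4 (z i))) = 0 :=
      Ideal.Quotient.eq_zero_iff_mem.2 (Ideal.mem_map_of_mem _ hq2)
    rw [map_sub, map_sub, sub_eq_zero, map_pow, map_X, map_pow, map_sum, map_sum] at h1
    simp only [map_mul] at h1
    exact h1
  have hJ0 : Ideal.Quotient.mk P J ≠ 0 := fun h => hJP (Ideal.Quotient.eq_zero_iff_mem.1 h)
  have hJW : Ideal.Quotient.mk P J ∈ Submodule.span k (Set.range x) ^ D := by
    rw [hmk]
    exact form_mem4 x hJ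
  have hφJ : φ (Ideal.Quotient.mk P J) = 0 := hJξ
  have hV : Submodule.span k (Set.range ξ) = (Submodule.span k (Set.range x)).map φ.toLinearMap := by
    rw [Submodule.map_span, ← Set.range_comp]
    congr 2
    funext j
    show ξ j = φ (Ideal.Quotient.mk P (X j))
    show ξ j = aeval ξ (X j)
    rw [aeval_X]
  have hfg : (Submodule.span k (Set.range x)).FG := Submodule.fg_span (Set.finite_range x)
  rw [hV]
  have key : finrank k ↥(((Submodule.span k (Set.range x)).map φ.toLinearMap) ^ m) ≤ D * (L + 1) ^ (N + 1) * (m + 1) := by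
    by_cases hm : D ≤ m
    · have h1 := lower4 φ hfg hJ0 hJW hφJ hm
      have h2 := upper4 x ζ (L + 1) rfl hh hζ hm
      omega
    · push Not at hm
      have h1 := small4 x ζ (L + 1) rfl hh hm
      have hf := fd4 hfg m
      rw [← Submodule.map_pow]
      exact (Submodule.finrank_map_le _ _).trans h1
  refine key.trans (le_of_eq ?_)
  ring

end

end Pool.Agent.TRI
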