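import Pool.Agent.Helper20.TRI.Nodes

/-!
# TRI, block G6, part 1: contraction of the extended ideal, a linear system of parameters
-/

set_option autoImplicit false

namespace Pool.Agent.TRI

open Module MvPolynomial

universe u

section

variable {k₀ k : Type*} [Field k₀] [Field k] [Algebra k₀ k] {σ : Type*}

/-- applying a linear map to the coefficients -/
private noncomputable def cf4 (ρ : k →ₗ[k₀] k₀) (p : MvPolynomial σ k) : MvPolynomial σ k₀ :=
  ∑ s ∈ p.support, monomial s (ρ (p.coeff s))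

private theorem coeff_cf4 (ρ : k →ₗ[k₀] k₀) (p : MvPolynomial σ k) (t : σ →₀ ℕ) : (cf4 ρ p).coeff t = ρ (p.coeff t) := by
  classical
  unfold cf4
  rw [coeff_sum]
  simp only [coeff_monomial]
  rw [Finset.sum_ite_eq' p.support t]
  split_ifs with h
  · rfl
  · rw [notMem_support_iff.1 h, map_zero]

private theorem cf4_add (ρ : k →ₗ[k₀] k₀) (p p' : MvPolynomial σ k) : cf4 ρ (p + p') = cf4 ρ p + cf4 ρ p' := by
  ext t
  rw [coeff_cf4, coeff_add, coeff_add, coeff_cf4, coeff_cf4, map_add]

private theorem cf4_mul (ρ : k →ₗ[k₀] k₀) (a : MvPolynomial σ k) (g : MvPolynomial σ k₀) :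
    cf4 ρ (a * MvPolynomial.map (algebraMap k₀ k) g) = cf4 ρ a * g := by
  classical
  ext t
  rw [coeff_cf4, coeff_mul, coeff_mul, map_sum]
  refine Finset.sum_congr rfl fun x _ => ?_
  rw [coeff_map, coeff_cf4, mul_comm, ← Algebra.smul_def, LinearMap.map_smul, smul_eq_mul, mul_comm]

open Classical in
/-- the contraction of the extended ideal -/
theorem contract4 (I : Ideal (MvPolynomial σ k₀)) (f : MvPolynomial σ k₀)
    (h : MvPolynomial.map (algebraMap k₀ k) f ∈ I.map (MvPolynomial.map (algebraMap k₀ k))) : f ∈ I := by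
  obtain ⟨ρ, hρ⟩ := LinearMap.exists_leftInverse_of_injective (Algebra.linearMap k₀ k)
    (LinearMap.ker_eq_bot.2 (algebraMap k₀ k).injective)
  have hρ1 : ρ 1 = 1 := by
    have h1 := LinearMap.congr_fun hρ 1
    simpa using h1
  have h1 : ∀ a : MvPolynomial σ k, cf4 ρ (a * MvPolynomial.map (algebraMap k₀ k) f) ∈ I := by
    refine Submodule.span_induction (p := fun x _ => ∀ a : MvPolynomial σ k, cf4 ρ (a * x) ∈ I) ?_ ?_ ?_ ?_ h
    · rintro _ ⟨g, hg, rfl⟩ a
      rw [cf4_mul]
      exact I.mul_mem_left _ hg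
    · intro a
      rw [mul_zero]
      have : cf4 ρ (0 : MvPolynomial σ k) = 0 := by
        ext t
        rw [coeff_cf4, coeff_zero, coeff_zero, map_zero]
      rw [this]
      exact I.zero_mem
    · intro x y _ _ hx hy a
      rw [mul_add, cf4_add]
      exact I.add_mem (hx a) (hy a)
    · intro b x _ hx a
      rw [smul_eq_mul, ← mul_assoc]
      exact hx _
  have h2 := h1 1
  rw [cf4_mul] at h2
  have h3 : cf4 ρ (1 : MvPolynomial σ k) = 1 := by
    ext t
    rw [coeff_cf4, coeff_one, coeff_one]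
    split_ifs
    · exact hρ1
    · exact map_zero _
  rwa [h3, one_mul] at h2

end

section

variable {k₀ : Type u} [Field k₀] {N : ℕ} {I : Ideal (MvPolynomial (Fin (N + 1)) k₀)}

/-- the linear form as a polynomial -/
noncomputable def lf4 {K : Type*} [Field K] (m : Fin (N + 1) → K) : MvPolynomial (Fin (N + 1)) K := ∑ b, C (m b) * X b

/-- three linear forms without a common zero on `X`, and their power of the irrelevant ideal -/
theorem noether4 [CharZero k₀] (hX : Surf I) : ∃ (z : Fin 3 → Fin (N + 1) → k₀) (M : ℕ), lf4 (z 0) ∉ I ∧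
    ∀ j, (X j : MvPolynomial (Fin (N + 1)) k₀) ^ M ∈ I ⊔ Ideal.span (Set.range fun i => lf4 (z i)) := by
  classical
  obtain ⟨Φ, hΦ, H⟩ := three_phi20 hX 3
  have hinf : Infinite k₀ := inferInstance
  obtain ⟨l, hl⟩ : ∃ l : Fin 3 × Fin (N + 1) → k₀, eval l Φ ≠ 0 := by
    by_contra hcon
    push Not at hcon
    exact hΦ (MvPolynomial.funext fun x => by rw [hcon, map_zero])
  let K := AlgebraicClosure k₀
  have H1 := H K (fun i c => algebraMap k₀ K (l (i, c))) (by
    intro h
    apply hl
    apply (algebraMap k₀ K).injective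
    rw [map_zero, ← h]
    have h2 : (fun p : Fin 3 × Fin (N + 1) => algebraMap k₀ K (l (p.1, p.2))) = algebraMap k₀ K ∘ l := rfl
    rw [h2]
    have h3 := MvPolynomial.aeval_algebraMap_apply K l Φ
    rw [h3]
    rfl)
  let z : Fin 3 → Fin (N + 1) → k₀ := fun i c => l (i, c)
  let J : Ideal (MvPolynomial (Fin (N + 1)) k₀) := I ⊔ Ideal.span (Set.range fun i => lf4 (z i))
  have hJ : ∀ i, lf4 (z i) ∈ J := fun i => Ideal.mem_sup_right (Ideal.subset_span ⟨i, rfl⟩)
  -- no zero but the origin
  have hzero : ∀ y : Fin (N + 1) → K, (∀ p ∈ J, aeval y p = 0) → y = 0 := by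
    intro y hy
    by_contra hy0
    refine H1 y hy0 (fun g hg => hy g (Ideal.mem_sup_left hg)) id Function.injective_id ?_
    have h3 : ∀ i, lv (fun c => algebraMap k₀ K (l (i, c))) y = 0 := by
      intro i
      have h4 := hy _ (hJ i)
      rw [lf4, map_sum] at h4
      simp only [map_mul, aeval_C, aeval_X] at h4
      exact h4
    exact ⟨h3 0, h3 1, h3 2⟩
  have hpow : ∀ j, ∃ M, (X j : MvPolynomial (Fin (N + 1)) k₀) ^ M ∈ J := by
    intro j
    have h1 : (X j : MvPolynomial (Fin (N + 1)) k₀) ∈ vanishingIdeal k₀ (zeroLocus K J) := by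
      rw [mem_vanishingIdeal_iff]
      intro y hy
      rw [hzero y hy]
      simp
    rw [vanishingIdeal_zeroLocus_eq_radical] at h1
    exact h1
  choose M hM using hpow
  have hM' : ∀ j, (X j : MvPolynomial (Fin (N + 1)) k₀) ^ (∑ j, M j) ∈ J := by
    intro j
    have h1 : M j ≤ ∑ j, M j := Finset.single_le_sum (fun _ _ => Nat.zero_le _) (Finset.mem_univ j)
    exact Ideal.pow_mem_of_pow_mem _ (hM j) h1
  -- one of the forms is not in the ideal
  have hne : ∃ i, lf4 (z i) ∉ I := by
    by_contra hcon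
    push Not at hcon
    have hJI : J ≤ I := sup_le le_rfl (Ideal.span_le.2 (by rintro _ ⟨i, rfl⟩; exact hcon i))
    have hXI : ∀ j, (X j : MvPolynomial (Fin (N + 1)) k₀) ∈ I := fun j => hX.prime.mem_of_pow_mem _ (hJI (hM' j))
    have h2 : ∀ p : MvPolynomial (Fin (N + 1)) k₀, IsAlgebraic k₀ (Ideal.Quotient.mk I p) := by
      intro p
      induction p using MvPolynomial.induction_on with
      | C a => exact isAlgebraic_algebraMap a
      | add p p' h h' =>
        rw [map_add]
        exact h.add h'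
      | mul_X p j _ =>
        rw [map_mul, Ideal.Quotient.eq_zero_iff_mem.2 (hXI j), mul_zero]
        exact isAlgebraic_zero
    have h3 : Algebra.IsAlgebraic k₀ (MvPolynomial (Fin (N + 1)) k₀ ⧸ I) := ⟨fun y => by
      obtain ⟨p, rfl⟩ := Ideal.Quotient.mk_surjective y
      exact h2 p⟩
    have h1 := hX.tr
    rw [trdeg_eq_zero_iff.2 h3] at h1
    exact absurd h1 (by norm_num)
  obtain ⟨i, hi⟩ := hne
  refine ⟨fun j => z (Equiv.swap 0 i j), ∑ j, M j, ?_, fun j => ?_⟩
  · simpa using hi
  · have h1 : (Set.range fun a => lf4 (z (Equiv.swap 0 i a))) = Set.range fun a => lf4 (z a) := by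
      ext x
      constructor
      · rintro ⟨a, rfl⟩
        exact ⟨_, rfl⟩
      · rintro ⟨a, rfl⟩
        exact ⟨Equiv.swap 0 i a, by simp⟩
    show _ ∈ I ⊔ Ideal.span (Set.range fun a => lf4 (z (Equiv.swap 0 i a)))
    rw [h1]
    exact hM' j

end

end Pool.Agent.TRI
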